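import Pool.Agent.Helper91.MC9.Spec

/-!
# MP_9d78a0_co: parts CLQ (cliques are bounded) and SAT (saturation)
-/

set_option autoImplicit false

namespace Pool.Agent.Helper34.MC9.CLQ

open SimpleGraph Pool.Agent.Helper91.MC9

/-- a graph on one vertex is connected -/
theorem single {V : Type} (G : SimpleGraph V) (v : V) : (G.induce ({v} : Set V)).Connected := by
  haveI : Nonempty ({v} : Set V) := ⟨⟨v, rfl⟩⟩
  refine ⟨fun a b => ?_⟩
  have : a = b := Subtype.ext (by
    have ha : a.1 = v := a.2
    have hb : b.1 = v := b.2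
    rw [ha, hb])
  rw [this]

/-- a clique with `m` vertices has every graph on `m` vertices as a minor -/
theorem minor_of_clique {V : Type} (G : SimpleGraph V) {m : ℕ} (H : SimpleGraph (Fin m))
    (S : Set V) (hS : G.IsClique S) (f : Fin m → V) (hf : Function.Injective f)
    (hfS : ∀ i, f i ∈ S) : IsMinor H G := by
  refine ⟨fun i => {f i}, fun i => single G (f i), ?_, ?_⟩
  · intro a b hab
    rw [Set.disjoint_singleton]
    exact fun h => hab (hf h)
  · intro a b hab
    exact ⟨f a, rfl, f b, rfl, hS (hfS a) (hfS b) (fun h => hab.ne (hf h))⟩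

theorem main : S_CLQ := by
  intro ℋ hne
  obtain ⟨H, hH⟩ := hne
  refine ⟨H.1, fun V _ G hG S hS => ?_⟩
  by_contra hlt
  push Not at hlt
  have hfin : S.Finite := Set.toFinite S
  have hle : H.1 ≤ Nat.card S := by
    rw [Nat.card_coe_set_eq]; exact hlt.le
  haveI : Finite S := hfin
  haveI : Fintype S := Fintype.ofFinite S
  have hc : Fintype.card (Fin H.1) ≤ Fintype.card S := by
    rw [Fintype.card_fin, ← Nat.card_eq_fintype_card]; exact hle
  obtain ⟨e⟩ := Function.Embedding.nonempty_of_card_le hc
  exact hG H hH (minor_of_clique G H.2 S hS (fun i => (e i).1)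
    (fun a b h => e.injective (Subtype.ext h)) (fun i => (e i).2))

end Pool.Agent.Helper34.MC9.CLQ
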