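import Pool.Agent.Helper91.MC9.Spec

/-!
# MP_9d78a0_co: part SAT (saturation)
-/

set_option autoImplicit false

namespace Pool.Agent.Helper34.MC9.SAT

open SimpleGraph Pool.Agent.Helper91.MC9

theorem main : S_SAT := by
  intro ℋ V _ G hG
  have hfin : {G' : SimpleGraph V | Free ℋ G'}.Finite := Set.toFinite _
  obtain ⟨G', hle, hmax⟩ := hfin.exists_le_maximal (a := G) hG
  refine ⟨G', hle, hmax.prop, fun u v huv hn hF => hn ?_⟩
  have h1 : G' ⊔ edge u v ≤ G' := hmax.le_of_ge hF le_sup_left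
  exact h1 (Or.inr ((edge_adj u v u v).2 ⟨Or.inl ⟨rfl, rfl⟩, huv⟩))

end Pool.Agent.Helper34.MC9.SAT
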